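import Mathlib

namespace Pool.Agent.H297R2

open Module

/-- Nullstellensatz: a nonzero element of a finitely generated domain over an algebraically closed
field does not vanish at some rational point. -/
theorem exists_hom (κ : Type*) [Field κ] [IsAlgClosed κ] (A : Type*) [CommRing A] [IsDomain A]
    [Algebra κ A] [Algebra.FiniteType κ A] (a : A) (ha : a ≠ 0) : ∃ φ : A →ₐ[κ] κ, φ a ≠ 0 := by
  have h1 : Algebra.FiniteType κ (Localization.Away a) :=
    Algebra.FiniteType.trans (S := A) ‹_› (IsLocalization.finiteType_of_monoid_fg (Submonoid.powers a) _)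
  have h2 : Nontrivial (Localization.Away a) := by
    have : Submonoid.powers a ≤ nonZeroDivisors A := powers_le_nonZeroDivisors_of_noZeroDivisors ha
    exact (IsLocalization.injective (Localization.Away a) this).nontrivial
  obtain ⟨m, hm⟩ := Ideal.exists_maximal (Localization.Away a)
  let F := Localization.Away a ⧸ m
  let _ : Field F := Ideal.Quotient.field m
  have h3 : Algebra.FiniteType κ F :=
    Algebra.FiniteType.of_surjective (Ideal.Quotient.mkₐ κ m) (Ideal.Quotient.mkₐ_surjective κ m)
  have h4 : Module.Finite κ F := finite_of_finite_type_of_isJacobsonRing κ F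
  have h5 : Function.Bijective (algebraMap κ F) := IsAlgClosed.algebraMap_bijective_of_isIntegral
  let e : κ ≃ₐ[κ] F := AlgEquiv.ofBijective (Algebra.ofId κ F) h5
  let ψ : A →ₐ[κ] F := (Ideal.Quotient.mkₐ κ m).comp (IsScalarTower.toAlgHom κ A (Localization.Away a))
  refine ⟨(e.symm : F →ₐ[κ] κ).comp ψ, ?_⟩
  have h6 : IsUnit (ψ a) := by
    have : IsUnit (algebraMap A (Localization.Away a) a) :=
      IsLocalization.Away.algebraMap_isUnit (S := Localization.Away a) a
    exact this.map (Ideal.Quotient.mkₐ κ m)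
  simp only [AlgHom.comp_apply]
  intro h0
  have h7 : ψ a = 0 := by
    have := (map_eq_zero_iff (e.symm : F →ₐ[κ] κ) e.symm.injective).1 h0
    exact this
  exact h6.ne_zero h7

/-- Simultaneous choice of rational points. -/
theorem exists_points (κ : Type*) [Field κ] [IsAlgClosed κ] (A : Type*) [CommRing A] [IsDomain A]
    [Algebra κ A] [Algebra.FiniteType κ A] {G : Type*} [Fintype G] (N : ℕ) :
    ∀ (W : G → Submodule κ A) [∀ g, Module.Finite κ (W g)], (∀ g, finrank κ (W g) ≤ N) →
    ∃ φ : Fin N → (A →ₐ[κ] κ), ∀ g, ∀ w ∈ W g, (∀ j, φ j w = 0) → w = 0 := by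
  classical
  induction N with
  | zero =>
    intro W _ hW
    refine ⟨Fin.elim0, fun g w hw _ => ?_⟩
    have h1 : W g = ⊥ := Submodule.finrank_eq_zero.1 (Nat.le_zero.1 (hW g))
    rw [h1] at hw
    exact hw
  | succ N ih =>
    intro W _ hW
    have hch : ∀ g, ∃ w : A, w ≠ 0 ∧ (W g ≠ ⊥ → w ∈ W g) := by
      intro g
      by_cases h : W g = ⊥
      · exact ⟨1, one_ne_zero, fun h' => absurd h h'⟩
      · obtain ⟨w, hw, hw0⟩ := (Submodule.ne_bot_iff _).1 h
        exact ⟨w, hw0, fun _ => hw⟩
    choose w hw0 hwm using hch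
    obtain ⟨φ₀, hφ₀⟩ := exists_hom κ A (∏ g, w g) (Finset.prod_ne_zero_iff.2 (fun g _ => hw0 g))
    rw [map_prod, Finset.prod_ne_zero_iff] at hφ₀
    have hφ₀' : ∀ g, φ₀ (w g) ≠ 0 := fun g => hφ₀ g (Finset.mem_univ g)
    set W' : G → Submodule κ A := fun g => W g ⊓ LinearMap.ker φ₀.toLinearMap with hW'
    have hfin : ∀ g, Module.Finite κ (W' g) := fun g => Submodule.finiteDimensional_inf_left _ _
    have hrank : ∀ g, finrank κ (W' g) ≤ N := by
      intro g
      by_cases h : W g = ⊥
      · have : W' g = ⊥ := by rw [hW']; simp [h]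
        rw [this, finrank_bot]
        exact Nat.zero_le _
      · have hlt : W' g < W g := by
          refine lt_of_le_of_ne inf_le_left ?_
          intro heq
          have h1 : w g ∈ W' g := by rw [heq]; exact hwm g h
          rw [hW', Submodule.mem_inf] at h1
          exact hφ₀' g h1.2
        have h2 := Submodule.finrank_lt_finrank_of_lt hlt
        have h3 := hW g
        omega
    obtain ⟨φ, hφ⟩ := ih W' hrank
    refine ⟨Fin.cons φ₀ φ, fun g v hv hvan => ?_⟩
    apply hφ g v
    · rw [hW', Submodule.mem_inf]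
      refine ⟨hv, ?_⟩
      have := hvan 0
      simpa using this
    · intro j
      have := hvan j.succ
      simpa using this

end Pool.Agent.H297R2
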