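import Mathlib
import Pool.Agent.H676.G.R_seed8.H297R2.Eval
import Pool.Agent.H676.G.R_seed8.H297R2.Cube

namespace Pool.Agent.H297R2

open Finset

/-- `x` satisfies no nonzero polynomial relation of total degree `≤ D` with coefficients in `κ`. -/
def NoRel (κ : Type*) {C σ : Type*} [CommRing κ] [CommRing C] [Algebra κ C] (D : ℕ)
    (x : σ → C) : Prop :=
  ∀ P : MvPolynomial σ κ, P.totalDegree ≤ D → MvPolynomial.aeval x P = 0 → P = 0

/-- Exponents of degree `≤ D`. -/
abbrev Ex (σ : Type*) (D : ℕ) := {s : σ →₀ ℕ // s.degree ≤ D}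

noncomputable instance (σ : Type*) [Finite σ] (D : ℕ) : Fintype (Ex σ D) :=
  (Finsupp.finite_of_degree_le (σ := σ) D).fintype

theorem totalDegree_sum_monomial_le {κ σ ι : Type*} [CommRing κ] (D : ℕ) (T : Finset ι)
    (e : ι → σ →₀ ℕ) (he : ∀ i ∈ T, (e i).degree ≤ D) (c : ι → κ) :
    (∑ i ∈ T, MvPolynomial.monomial (e i) (c i)).totalDegree ≤ D := by
  apply MvPolynomial.totalDegree_finsetSum_le
  intro i hi
  refine (MvPolynomial.totalDegree_monomial_le _ _).trans ?_
  exact he i hi

theorem noRel_iff {κ C σ : Type*} [CommRing κ] [CommRing C] [Algebra κ C] [Fintype σ] (D : ℕ)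
    (x : σ → C) : NoRel κ D x ↔
      ∀ c : Ex σ D → κ, ∑ s, c s • ∏ i, x i ^ (s.1 i) = 0 → ∀ s, c s = 0 := by
  classical
  constructor
  · intro h c hc s₀
    have h1 := h (∑ s : Ex σ D, MvPolynomial.monomial s.1 (c s))
      (totalDegree_sum_monomial_le D _ _ (fun s _ => s.2) c) (by
        rw [map_sum, ← hc]
        apply Finset.sum_congr rfl
        intro s _
        rw [MvPolynomial.aeval_monomial, Algebra.smul_def, Finsupp.prod_fintype _ _ (by simp)])
    have h2 := congrArg (MvPolynomial.coeff s₀.1) h1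
    rw [MvPolynomial.coeff_sum, MvPolynomial.coeff_zero] at h2
    rw [Finset.sum_eq_single s₀] at h2
    · simpa using h2
    · intro b _ hb
      rw [MvPolynomial.coeff_monomial, if_neg]
      intro h3
      exact hb (Subtype.ext h3)
    · intro h3; exact absurd (mem_univ _) h3
  · intro h P hP hx
    have hsupp : ∀ s ∈ P.support, s.degree ≤ D := by
      intro s hs
      have := MvPolynomial.le_totalDegree hs
      exact le_trans this hP
    have h1 := h (fun s => P.coeff s.1) (by
      rw [← hx]
      conv_rhs => rw [P.as_sum, map_sum]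
      rw [← Finset.sum_subtype_of_mem (p := fun s : σ →₀ ℕ => s.degree ≤ D)
        (f := fun s => MvPolynomial.aeval x (MvPolynomial.monomial s (P.coeff s))) hsupp]
      symm
      apply Finset.sum_subset_zero_on_sdiff (Finset.subset_univ _)
      · intro s hs
        rw [Finset.mem_sdiff, Finset.mem_subtype] at hs
        have h0 : P.coeff s.1 = 0 := MvPolynomial.notMem_support_iff.1 hs.2
        rw [h0, zero_smul]
      · intro s _
        rw [MvPolynomial.aeval_monomial, Algebra.smul_def, Finsupp.prod_fintype _ _ (by simp)])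
    ext s
    rw [MvPolynomial.coeff_zero]
    by_cases hs : s ∈ P.support
    · exact h1 ⟨s, hsupp s hs⟩
    · exact MvPolynomial.notMem_support_iff.1 hs

end Pool.Agent.H297R2
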