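import Mathlib
import Pool.Agent.H676.G.R_seed8.H297R2.Density

namespace Pool.Agent.H297R2

open Finset Complex

theorem NoRel.transfer {κ₁ κ₂ C σ : Type*} [CommRing κ₁] [CommRing κ₂] [CommRing C] [Algebra κ₁ C]
    [Algebra κ₂ C] (f : κ₁ →+* κ₂) (hf : Function.Injective f)
    (hcomp : ∀ a, algebraMap κ₂ C (f a) = algebraMap κ₁ C a) {D : ℕ} {x : σ → C}
    (h : NoRel κ₂ D x) : NoRel κ₁ D x := by
  intro P hP hx
  have h1 : MvPolynomial.map f P = 0 := by
    apply h
    · refine le_trans ?_ hP
      rw [MvPolynomial.totalDegree, MvPolynomial.totalDegree]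
      exact Finset.sup_mono (MvPolynomial.support_map_subset f P)
    · rw [← hx, MvPolynomial.aeval_def, MvPolynomial.aeval_def, MvPolynomial.eval₂_map]
      congr 1
      ext a
      exact hcomp a
  exact MvPolynomial.map_injective f hf (by rw [h1, map_zero])

theorem NoRel.reindex {κ C σ τ : Type*} [CommRing κ] [CommRing C] [Algebra κ C] (e : σ ≃ τ)
    {D : ℕ} {x : τ → C} (h : NoRel κ D (x ∘ e)) : NoRel κ D x := by
  intro P hP hx
  have h1 : MvPolynomial.rename e.symm P = 0 := by
    apply h
    · exact (MvPolynomial.totalDegree_rename_le _ P).trans hP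
    · rw [MvPolynomial.aeval_rename]
      have : (x ∘ e) ∘ e.symm = x := by funext t; simp
      rw [this, hx]
  exact MvPolynomial.rename_injective _ e.symm.injective (by rw [h1, map_zero])

theorem NoRel.reindex_iff {κ C σ τ : Type*} [CommRing κ] [CommRing C] [Algebra κ C] (e : σ ≃ τ)
    {D : ℕ} {x : τ → C} : NoRel κ D (x ∘ e) ↔ NoRel κ D x := by
  refine ⟨NoRel.reindex e, fun h => ?_⟩
  apply NoRel.reindex e.symm
  have : (x ∘ e) ∘ e.symm = x := by funext t; simp
  rwa [this]

/-- the reindexing `Option σ ⊕ Fin k ≃ σ ⊕ Fin (k+1)` -/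
def optEquiv (σ : Type*) (k : ℕ) : Option σ ⊕ Fin k ≃ σ ⊕ Fin (k + 1) where
  toFun s := match s with
    | Sum.inl none => Sum.inr 0
    | Sum.inl (some i) => Sum.inl i
    | Sum.inr j => Sum.inr j.succ
  invFun s := match s with
    | Sum.inl i => Sum.inl (some i)
    | Sum.inr j => Fin.cases (Sum.inl none) (fun j => Sum.inr j) j
  left_inv s := by
    rcases s with (_ | i) | j <;> simp
  right_inv s := by
    rcases s with i | j
    · rfl
    · refine Fin.cases ?_ (fun j => ?_) j <;> simp

open Classical in
/-- The uniform density theorem for tuples. -/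
theorem density_tuples (k : ℕ) : ∀ (σ : Type) [Fintype σ] (D : ℕ) (ε : ℝ), 0 < ε →
    ∃ x₀ : ℕ, ∀ x ≥ x₀, ∀ t : σ → ℂ, NoRel (algebraicClosure ℚ ℂ) D t →
    (((Fintype.piFinset fun _ : Fin k => Ioc 0 x).filter (fun n =>
      ¬ NoRel (algebraicClosure ℚ ℂ) D (Sum.elim t (fun i => (Real.log (n i) : ℂ))))).card : ℝ) ≤
      ε * x ^ k := by
  induction k with
  | zero =>
    intro σ _ D ε hε
    refine ⟨0, fun x _ t ht => ?_⟩
    rw [Finset.filter_false_of_mem]
    · simp [hε.le]
    · intro n _
      push Not
      rw [← NoRel.reindex_iff (Equiv.sumEmpty σ (Fin 0)).symm]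
      exact ht
  | succ k ih =>
    intro σ _ D ε hε
    obtain ⟨x₁, hx₁⟩ := density_one σ D (ε / 2) (by linarith)
    obtain ⟨x₂, hx₂⟩ := ih (Option σ) D (ε / 2) (by linarith)
    refine ⟨max x₁ x₂, fun x hx t ht => ?_⟩
    set bad : ((Fin (k + 1)) → ℕ) → Prop := fun n =>
      ¬ NoRel (algebraicClosure ℚ ℂ) D (Sum.elim t (fun i => (Real.log (n i) : ℂ))) with hbad
    set B := (Fintype.piFinset fun _ : Fin (k + 1) => Ioc 0 x).filter bad with hB
    set A := (Ioc 0 x).filter (fun n : ℕ =>
      ¬ NoRel (algebraicClosure ℚ ℂ) D (fun o : Option σ => o.elim (Real.log n : ℂ) t)) with hA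
    have hAcard : (A.card : ℝ) ≤ ε / 2 * x :=
      hx₁ x (le_trans (le_max_left _ _) hx) t ht A (Finset.filter_subset _ _) (by
        intro n hn; rw [hA, Finset.mem_filter] at hn; exact hn.2)
    have hfib : B.card = ∑ a ∈ Ioc 0 x, (B.filter (fun n => n 0 = a)).card := by
      apply Finset.card_eq_sum_card_fiberwise
      intro n hn
      have hn' : n ∈ B := hn
      rw [hB, Finset.mem_filter, Fintype.mem_piFinset] at hn'
      exact hn'.1 0
    have hle : ∀ a, (B.filter (fun n => n 0 = a)).card ≤
        ((Fintype.piFinset fun _ : Fin k => Ioc 0 x).filter (fun m => bad (Fin.cons a m))).card := by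
      intro a
      apply Finset.card_le_card_of_injOn (fun n => Fin.tail n)
      · intro n hn
        have hn' : n ∈ B.filter (fun n => n 0 = a) := hn
        rw [Finset.mem_filter, hB, Finset.mem_filter, Fintype.mem_piFinset] at hn'
        have hcons : (Fin.cons a (Fin.tail n) : Fin (k + 1) → ℕ) = n := by
          rw [← hn'.2]; exact Fin.cons_self_tail n
        show Fin.tail n ∈ _
        rw [Finset.mem_coe, Finset.mem_filter, Fintype.mem_piFinset]
        refine ⟨fun j => hn'.1.1 j.succ, ?_⟩
        rw [hcons]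
        exact hn'.1.2
      · intro n hn m hm h
        have hn' : n ∈ B.filter (fun n => n 0 = a) := hn
        have hm' : m ∈ B.filter (fun n => n 0 = a) := hm
        rw [Finset.mem_filter] at hn' hm'
        rw [← Fin.cons_self_tail n, ← Fin.cons_self_tail m, hn'.2, hm'.2]
        have : Fin.tail n = Fin.tail m := h
        rw [this]
    have hgood : ∀ a ∈ Ioc 0 x, a ∉ A →
        (((Fintype.piFinset fun _ : Fin k => Ioc 0 x).filter (fun m => bad (Fin.cons a m))).card : ℝ) ≤
          ε / 2 * x ^ k := by
      intro a ha haA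
      have hta : NoRel (algebraicClosure ℚ ℂ) D (fun o : Option σ => o.elim (Real.log a : ℂ) t) := by
        by_contra hcon
        apply haA
        rw [hA, Finset.mem_filter]
        exact ⟨ha, hcon⟩
      have h1 := hx₂ x (le_trans (le_max_right _ _) hx) _ hta
      refine le_trans (le_of_eq ?_) h1
      congr 2
      apply Finset.filter_congr
      intro m _
      rw [hbad]
      simp only
      rw [not_iff_not, ← NoRel.reindex_iff (optEquiv σ k)]
      have : (Sum.elim t (fun i => (Real.log ((Fin.cons a m : Fin (k + 1) → ℕ) i) : ℂ))) ∘ optEquiv σ k =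
          Sum.elim (fun o : Option σ => o.elim (Real.log a : ℂ) t) (fun i => (Real.log (m i) : ℂ)) := by
        funext s
        rcases s with (_ | i) | j <;> simp [optEquiv]
      rw [this]
    have htriv : ∀ a, (((Fintype.piFinset fun _ : Fin k => Ioc 0 x).filter (fun m => bad (Fin.cons a m))).card : ℝ) ≤
          (x : ℝ) ^ k := by
      intro a
      have h1 := Finset.card_filter_le (Fintype.piFinset fun _ : Fin k => Ioc 0 x) (fun m => bad (Fin.cons a m))
      rw [Fintype.card_piFinset] at h1
      simp only [Nat.card_Ioc, Finset.prod_const, Finset.card_univ, Fintype.card_fin] at h1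
      have h2 : (((Fintype.piFinset fun _ : Fin k => Ioc 0 x).filter (fun m => bad (Fin.cons a m))).card : ℝ) ≤ (((x - 0) ^ k : ℕ) : ℝ) := by
        exact_mod_cast h1
      simpa using h2
    have hAsub : A ⊆ Ioc 0 x := Finset.filter_subset _ _
    calc (B.card : ℝ) = ∑ a ∈ Ioc 0 x, ((B.filter (fun n => n 0 = a)).card : ℝ) := by
          rw [hfib]; push_cast; rfl
      _ ≤ ∑ a ∈ Ioc 0 x, ((if a ∈ A then (x : ℝ) ^ k else 0) + ε / 2 * x ^ k) := by
          apply Finset.sum_le_sum
          intro a ha
          have h1 : ((B.filter (fun n => n 0 = a)).card : ℝ) ≤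
            (((Fintype.piFinset fun _ : Fin k => Ioc 0 x).filter (fun m => bad (Fin.cons a m))).card : ℝ) := by
            exact_mod_cast hle a
          by_cases haA : a ∈ A
          · rw [if_pos haA]
            have h2 := htriv a
            have h3 : (0 : ℝ) ≤ ε / 2 * x ^ k := by positivity
            linarith
          · rw [if_neg haA, zero_add]
            exact h1.trans (hgood a ha haA)
      _ = (A.card : ℝ) * x ^ k + x * (ε / 2 * x ^ k) := by
          rw [Finset.sum_add_distrib, ← Finset.sum_filter, Finset.filter_mem_eq_inter,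
            Finset.inter_eq_right.2 hAsub, Finset.sum_const, Finset.sum_const, Nat.card_Ioc,
            nsmul_eq_mul, nsmul_eq_mul]
          simp
      _ ≤ (ε / 2 * x) * x ^ k + x * (ε / 2 * x ^ k) := by gcongr
      _ = ε * x ^ (k + 1) := by ring

end Pool.Agent.H297R2
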